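import Pool.Agent.Helper20.RG.St3

set_option autoImplicit false

open MeasureTheory Set Filter Topology
open scoped ENNReal RealInnerProductSpace

namespace Pool.Agent.Helper24.RG

open Pool.Agent.Helper68.LM (Pl BB Bd Av HL ft fm DQ)
open Pool.Agent.Helper20.RG

private theorem measDOM (g : Pl → ℝ) (hg : Measurable g) (P : ℝ → Pl) (hP : Measurable P)
    (M : ℝ → ℝ) (hM : Measurable M) (a : ℝ) (x : Pl) :
    Measurable (fun z : ℝ × Pl => g (x - a • P z.1 - M z.1 • z.2)) := by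
  refine hg.comp ?_
  have h2 : Measurable (fun z : ℝ × Pl => P z.1) := hP.comp measurable_fst
  have h3 : Measurable (fun z : ℝ × Pl => M z.1) := hM.comp measurable_fst
  have h4 : Measurable (fun z : ℝ × Pl => a • P z.1) := h2.const_smul a
  have h5 : Measurable (fun z : ℝ × Pl => x - a • P z.1) := measurable_const.sub h4
  have h6 : Measurable (fun z : ℝ × Pl => M z.1 • z.2) := h3.smul measurable_snd
  exact h5.sub h6

private theorem meas2DOM (P : ℝ → Pl) (hP : Measurable P) (a : ℝ) :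
    Measurable (fun z : Pl × ℝ => z.1 - a • P z.2) := by
  have h2 : Measurable (fun z : Pl × ℝ => P z.2) := hP.comp measurable_snd
  have h4 : Measurable (fun z : Pl × ℝ => a • P z.2) := h2.const_smul a
  exact measurable_fst.sub h4

theorem hDOM (hPT : StPT) (hMM : StMM) (hLEB : StLEB) (hDO1 : StDO1) : StDOM := by
  intro φ τ A σ c hG hGap hA hσ u₀ hu₀ g hg hg0
  obtain ⟨-, -, -, -, hptc, -, -, hsq⟩ := hPT
  have hgm : Measurable g := hg.1
  obtain ⟨K, hK, -⟩ := hg.2
  have hK0 : 0 ≤ K := (abs_nonneg _).trans (hK 0)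
  -- the curve is continuous
  have hφ1 : ∀ t t' : ℝ, t ≤ t' → |φ t' - φ t| ≤ t' - t := by
    intro t t' htt
    obtain ⟨h2, h3⟩ := hG.2 t t' htt
    have h4 := abs_le.1 (hG.1 t)
    have h5 := abs_le.1 (hG.1 t')
    have h6 : 0 ≤ t' - t := by linarith
    rw [abs_le]
    constructor <;> nlinarith
  have hφc : Continuous φ := by
    have h1 : LipschitzWith 1 φ := by
      refine LipschitzWith.of_dist_le_mul (fun a b => ?_)
      rw [Real.dist_eq, Real.dist_eq, NNReal.coe_one, one_mul]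
      rcases le_total a b with hab | hab
      · rw [abs_sub_comm, abs_sub_comm a b, abs_of_nonneg (show 0 ≤ b - a by linarith)]
        exact hφ1 a b hab
      · rw [abs_of_nonneg (show 0 ≤ a - b by linarith)]
        exact hφ1 b a hab
    exact h1.continuous
  set P : ℝ → Pl := fun t => c + pt t (φ t) with hP
  have hPc : Continuous P := continuous_const.add (hptc.comp (continuous_id.prodMk hφc))
  have hPm : Measurable P := hPc.measurable
  have hAv : ∀ (k : ℤ) (x : Pl), Av (arc c φ) ((2 : ℝ) ^ k) g x =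
      ∫ t in Icc (0 : ℝ) 1, g (x - (2 : ℝ) ^ k • P t) := by
    intro k x
    unfold Av arc
    rw [integral_map hPm.aemeasurable]
    exact (hgm.comp (by fun_prop)).aestronglyMeasurable
  -- Fubini
  set N : Set Pl := {z | ¬ Tendsto (fun ρ : ℝ => Av bx ρ g z) (𝓝[>] 0) (𝓝 (g z))} with hN
  have hN0 : volume N = 0 := hLEB g hg
  set N' : Set Pl := toMeasurable volume N with hN'
  have hN'm : MeasurableSet N' := measurableSet_toMeasurable _ _
  have hN'0 : volume N' = 0 := by rw [hN', measure_toMeasurable, hN0]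
  have hfub : ∀ k : ℤ, ∀ᵐ x : Pl, ∀ᵐ t ∂(volume.restrict (Icc (0 : ℝ) 1)),
      x - (2 : ℝ) ^ k • P t ∉ N' := by
    intro k
    set S : Set (Pl × ℝ) := {z | z.1 - (2 : ℝ) ^ k • P z.2 ∈ N'} with hS
    have hSm : MeasurableSet S := by
      exact meas2DOM P hPm _ hN'm
    have h0 : ((volume : Measure Pl).prod (volume.restrict (Icc (0 : ℝ) 1))) S = 0 := by
      rw [Measure.prod_apply_symm hSm]
      have h1 : ∀ t : ℝ, volume ((fun x : Pl => (x, t)) ⁻¹' S) = 0 := by
        intro t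
        have h2 : (fun x : Pl => (x, t)) ⁻¹' S = (fun x => x - (2 : ℝ) ^ k • P t) ⁻¹' N' := rfl
        rw [h2]
        have h3 := (measurePreserving_sub_right (volume : Measure Pl)
          ((2 : ℝ) ^ k • P t)).measure_preimage hN'm.nullMeasurableSet
        rw [h3, hN'0]
      simp only [h1, lintegral_zero]
    have h4 := Measure.measure_ae_null_of_prod_null h0
    filter_upwards [h4] with x hx
    rw [ae_iff]
    have h5 : {t : ℝ | ¬ (x - (2 : ℝ) ^ k • P t ∉ N')} = Prod.mk x ⁻¹' S := by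
      ext t; simp [hS]
    rw [h5]
    exact hx
  have hbx : bx univ = 1 := by
    unfold bx
    rw [Measure.restrict_apply_univ, (hsq 0 (1 / 2) (by norm_num)).2]
    norm_num
  have hbp : IsProbabilityMeasure bx := ⟨hbx⟩
  -- the main estimate
  rw [ae_all_iff]
  intro k
  filter_upwards [hfub k] with x hx
  set M : ℕ → ℝ → ℝ := fun u t => (2 : ℝ) ^ (k - (mm τ u ⌊t * 2 ^ u⌋₊ : ℤ)) with hM
  set G : ℕ → ℝ → ℝ := fun u t => Av bx (M u t) g (x - (2 : ℝ) ^ k • P t) with hGd
  have hMm : ∀ u, Measurable (M u) := by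
    intro u
    have h1 : Measurable (fun t : ℝ => ⌊t * 2 ^ u⌋₊) := Nat.measurable_floor.comp (by fun_prop)
    have h2 : Measurable (fun n : ℕ => (2 : ℝ) ^ (k - (mm τ u n : ℤ))) := measurable_from_nat
    exact h2.comp h1
  have hGm : ∀ u, StronglyMeasurable (G u) := by
    intro u
    exact (measDOM g hgm P hPm (M u) (hMm u) ((2 : ℝ) ^ k) x).stronglyMeasurable.integral_prod_right
  have hGb : ∀ u t, ‖G u t‖ ≤ K := by
    intro u t
    have h1 : ‖∫ y, g (x - (2 : ℝ) ^ k • P t - M u t • y) ∂bx‖ ≤ K * bx.real univ :=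
      norm_integral_le_of_norm_le_const (Eventually.of_forall (fun y => by
        rw [Real.norm_eq_abs]; exact hK _))
    have h2 : bx.real univ = 1 := by rw [measureReal_def, hbx]; simp
    rw [h2, mul_one] at h1
    exact h1
  have hlim : ∀ᵐ t ∂(volume.restrict (Icc (0 : ℝ) 1)),
      Tendsto (fun u => G u t) atTop (𝓝 (g (x - (2 : ℝ) ^ k • P t))) := by
    have h1 : ∀ᵐ t ∂(volume.restrict (Icc (0 : ℝ) 1)), t ∈ Icc (0 : ℝ) 1 :=
      ae_restrict_mem measurableSet_Icc
    have h2 : ∀ᵐ t ∂(volume.restrict (Icc (0 : ℝ) 1)), t ≠ 1 :=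
      ae_restrict_of_ae (by
        rw [ae_iff]
        have : {a : ℝ | ¬ a ≠ 1} = {1} := by ext a; simp
        rw [this]; exact measure_singleton _)
    filter_upwards [hx, h1, h2] with t ht ht1 ht2
    have h3 : x - (2 : ℝ) ^ k • P t ∉ N := fun h => ht (subset_toMeasurable _ _ h)
    have h4 : Tendsto (fun ρ : ℝ => Av bx ρ g (x - (2 : ℝ) ^ k • P t)) (𝓝[>] 0)
        (𝓝 (g (x - (2 : ℝ) ^ k • P t))) := not_not.1 h3
    refine h4.comp ?_
    refine tendsto_nhdsWithin_iff.2 ⟨?_, Eventually.of_forall (fun u => by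
      show (0 : ℝ) < M u t
      exact zpow_pos (by norm_num) _)⟩
    have h5 : ∀ᶠ u : ℕ in atTop, M u t ≤ (2 : ℝ) ^ (k + 1) * (1 / 2) ^ u := by
      filter_upwards [eventually_ge_atTop 1] with u hu
      have h6 : ⌊t * 2 ^ u⌋₊ < 2 ^ u := by
        rw [Nat.floor_lt (by have := ht1.1; positivity)]
        push_cast
        have h7 : t < 1 := lt_of_le_of_ne ht1.2 ht2
        have h8 : (0 : ℝ) < 2 ^ u := by positivity
        nlinarith
      have h9 := (hMM φ τ A σ hG hGap hA hσ u _ hu h6).2.2.2.2.1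
      have h10 : M u t ≤ (2 : ℝ) ^ (k + 1 - (u : ℤ)) := by
        refine zpow_le_zpow_right₀ (by norm_num) ?_
        have : (u : ℤ) ≤ (mm τ u ⌊t * 2 ^ u⌋₊ : ℤ) + 1 := by exact_mod_cast h9
        linarith
      refine h10.trans (le_of_eq ?_)
      rw [zpow_sub₀ (by norm_num), zpow_natCast, one_div, inv_pow, div_eq_mul_inv]
    refine squeeze_zero' (Eventually.of_forall (fun u => (zpow_pos (by norm_num) _).le)) h5 ?_
    have h11 := (tendsto_pow_atTop_nhds_zero_of_lt_one (r := (1 / 2 : ℝ)) (by norm_num)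
      (by norm_num)).const_mul ((2 : ℝ) ^ (k + 1))
    rwa [mul_zero] at h11
  have hT : Tendsto (fun u => ∫ t in Icc (0 : ℝ) 1, G u t) atTop
      (𝓝 (∫ t in Icc (0 : ℝ) 1, g (x - (2 : ℝ) ^ k • P t))) := by
    refine tendsto_integral_of_dominated_convergence (fun _ => K)
      (fun u => (hGm u).aestronglyMeasurable) (integrable_const K)
      (fun u => Eventually.of_forall (fun t => hGb u t)) hlim
  have hT2 : Tendsto (fun n : ℕ => ENNReal.ofReal (∫ t in Icc (0 : ℝ) 1, G (u₀ + n) t)) atTop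
      (𝓝 (ENNReal.ofReal (Av (arc c φ) ((2 : ℝ) ^ k) g x))) := by
    rw [hAv k x]
    have h1 : Tendsto (fun n : ℕ => u₀ + n) atTop atTop :=
      tendsto_atTop_mono (fun n => Nat.le_add_left n u₀) tendsto_id
    exact (ENNReal.continuous_ofReal.tendsto _).comp (hT.comp h1)
  refine le_of_tendsto' hT2 (fun n => ?_)
  have hd := hDO1 φ τ A σ c hG hGap hA hσ (u₀ + n) (by omega) g hg hg0 k x
  have htel : Sa c φ τ (u₀ + n) k g x = Sa c φ τ u₀ k g x +
      ∑ i ∈ Finset.range n, (Sa c φ τ (u₀ + i + 1) k g x - Sa c φ τ (u₀ + i) k g x) := by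
    have h1 := Finset.sum_range_sub (fun i => Sa c φ τ (u₀ + i) k g x) n
    simp only [add_zero] at h1
    have h2 : ∑ i ∈ Finset.range n, (Sa c φ τ (u₀ + i + 1) k g x - Sa c φ τ (u₀ + i) k g x) =
        Sa c φ τ (u₀ + n) k g x - Sa c φ τ u₀ k g x := h1
    rw [h2]; ring
  have habs : ∑ i ∈ Finset.range n, (Sa c φ τ (u₀ + i + 1) k g x - Sa c φ τ (u₀ + i) k g x) ≤
      ∑ i ∈ Finset.range n, |Sa c φ τ (u₀ + i + 1) k g x - Sa c φ τ (u₀ + i) k g x| :=
    Finset.sum_le_sum (fun i _ => le_abs_self _)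
  calc ENNReal.ofReal (∫ t in Icc (0 : ℝ) 1, G (u₀ + n) t)
      ≤ ENNReal.ofReal (4 * Sa c φ τ u₀ k g x +
        4 * ∑ i ∈ Finset.range n, |Sa c φ τ (u₀ + i + 1) k g x - Sa c φ τ (u₀ + i) k g x|) := by
        refine ENNReal.ofReal_le_ofReal ?_
        have h1 : ∫ t in Icc (0 : ℝ) 1, G (u₀ + n) t ≤ 4 * Sa c φ τ (u₀ + n) k g x := hd
        rw [htel] at h1
        linarith
    _ ≤ ENNReal.ofReal (4 * Sa c φ τ u₀ k g x) + ENNReal.ofReal (4 *
        ∑ i ∈ Finset.range n, |Sa c φ τ (u₀ + i + 1) k g x - Sa c φ τ (u₀ + i) k g x|) :=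
        ENNReal.ofReal_add_le
    _ ≤ _ := by
        refine add_le_add le_rfl ?_
        rw [ENNReal.ofReal_mul (by norm_num), ENNReal.ofReal_sum_of_nonneg
          (fun i _ => abs_nonneg _)]
        have h4 : ENNReal.ofReal (4 : ℝ) = 4 := by norm_num
        rw [h4]
        refine mul_le_mul_right ?_ _
        calc ∑ i ∈ Finset.range n,
              ENNReal.ofReal |Sa c φ τ (u₀ + i + 1) k g x - Sa c φ τ (u₀ + i) k g x|
            = ∑ i ∈ Finset.range n,
              ‖Sa c φ τ (u₀ + i + 1) k g x - Sa c φ τ (u₀ + i) k g x‖ₑ :=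
              Finset.sum_congr rfl (fun i _ => (Real.enorm_eq_ofReal_abs _).symm)
          _ ≤ _ := ENNReal.sum_le_tsum _

end Pool.Agent.Helper24.RG
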