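import Pool.Agent.Helper20.RG.St3
import Pool.Agent.Helper42.LM.M_LC

set_option autoImplicit false

open MeasureTheory Set Filter Topology
open scoped ENNReal RealInnerProductSpace

namespace Pool.Agent.Helper24.RG

open Pool.Agent.Helper68.LM (Pl BB Bd Av HL ft fm DQ)
open Pool.Agent.Helper20.RG

private theorem tonINT (w : ℝ → ℝ≥0∞) (hw : Measurable w) (h : Pl → ℝ≥0∞) (hh : Measurable h)
    (S : Set (ℝ × Pl)) (hS : MeasurableSet S) :
    ∫⁻ t in Ioi (0 : ℝ), w t * ∫⁻ x in {x : Pl | (t, x) ∈ S}, h x =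
      ∫⁻ x, h x * ∫⁻ t in Ioi (0 : ℝ), {t : ℝ | (t, x) ∈ S}.indicator w t := by
  have h1 : ∀ t : ℝ, w t * ∫⁻ x in {x : Pl | (t, x) ∈ S}, h x =
      ∫⁻ x, S.indicator (fun z : ℝ × Pl => w z.1 * h z.2) (t, x) := by
    intro t
    have hSt : MeasurableSet {x : Pl | (t, x) ∈ S} := measurable_prodMk_left hS
    rw [← lintegral_indicator hSt, ← lintegral_const_mul _ (hh.indicator hSt)]
    refine lintegral_congr (fun x => ?_)
    by_cases hx : (t, x) ∈ S
    · rw [indicator_of_mem (show x ∈ {x : Pl | (t, x) ∈ S} from hx), indicator_of_mem hx]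
    · rw [indicator_of_notMem (show x ∉ {x : Pl | (t, x) ∈ S} from hx),
        indicator_of_notMem hx, mul_zero]
  have hm : Measurable (S.indicator (fun z : ℝ × Pl => w z.1 * h z.2)) :=
    ((hw.comp measurable_fst).mul (hh.comp measurable_snd)).indicator hS
  calc ∫⁻ t in Ioi (0 : ℝ), w t * ∫⁻ x in {x : Pl | (t, x) ∈ S}, h x
      = ∫⁻ t in Ioi (0 : ℝ), ∫⁻ x, S.indicator (fun z : ℝ × Pl => w z.1 * h z.2) (t, x) :=
        lintegral_congr (fun t => h1 t)
    _ = ∫⁻ x, ∫⁻ t in Ioi (0 : ℝ), S.indicator (fun z : ℝ × Pl => w z.1 * h z.2) (t, x) :=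
        lintegral_lintegral_swap hm.aemeasurable
    _ = _ := by
        refine lintegral_congr (fun x => ?_)
        have hSx : MeasurableSet {t : ℝ | (t, x) ∈ S} := measurable_prodMk_right hS
        have h2 : ∀ t : ℝ, S.indicator (fun z : ℝ × Pl => w z.1 * h z.2) (t, x) =
            h x * {t : ℝ | (t, x) ∈ S}.indicator w t := by
          intro t
          by_cases hx : (t, x) ∈ S
          · rw [indicator_of_mem (show t ∈ {t : ℝ | (t, x) ∈ S} from hx), indicator_of_mem hx,
              mul_comm]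
          · rw [indicator_of_notMem (show t ∉ {t : ℝ | (t, x) ∈ S} from hx),
              indicator_of_notMem hx, mul_zero]
        simp only [h2]
        rw [lintegral_const_mul _ (hw.indicator hSx)]

private theorem powINT (p q : ℝ) (hq : 0 < q) (hqp : q < p) (b : ℝ) (hb : 0 ≤ b) :
    ∫⁻ t in Ioc (0 : ℝ) b, ENNReal.ofReal (p * t ^ (p - 1)) * ENNReal.ofReal (t ^ (-q)) =
      ENNReal.ofReal (p / (p - q) * b ^ (p - q)) := by
  have h1 : ∫⁻ t in Ioc (0 : ℝ) b,
      ENNReal.ofReal (p * t ^ (p - 1)) * ENNReal.ofReal (t ^ (-q)) =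
      ∫⁻ t in Ioc (0 : ℝ) b, ENNReal.ofReal (p * t ^ (p - q - 1)) := by
    refine setLIntegral_congr_fun measurableSet_Ioc (fun t ht => ?_)
    have ht0 : 0 < t := ht.1
    have h2 : 0 ≤ p * t ^ (p - 1) := mul_nonneg (by linarith) (Real.rpow_nonneg ht0.le _)
    rw [← ENNReal.ofReal_mul h2, mul_assoc, ← Real.rpow_add ht0]
    congr 3
    ring
  rw [h1]
  have hint : IntervalIntegrable (fun t : ℝ => p * t ^ (p - q - 1)) volume 0 b :=
    (intervalIntegral.intervalIntegrable_rpow' (by linarith)).const_mul p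
  have hio : IntegrableOn (fun t : ℝ => p * t ^ (p - q - 1)) (Ioc 0 b) volume :=
    (intervalIntegrable_iff_integrableOn_Ioc_of_le hb).1 hint
  rw [← ofReal_integral_eq_lintegral_ofReal hio]
  · rw [← intervalIntegral.integral_of_le hb, intervalIntegral.integral_const_mul,
      integral_rpow (Or.inl (by linarith))]
    congr 1
    have e1 : p - q - 1 + 1 = p - q := by ring
    rw [e1, Real.zero_rpow (by linarith), sub_zero]
    ring
  · refine (ae_restrict_iff' measurableSet_Ioc).2 (Eventually.of_forall (fun t ht => ?_))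
    exact mul_nonneg (by linarith) (Real.rpow_nonneg ht.1.le _)

theorem hINT : StINT := by
  intro ν R L p q hBd hL hq hqp hM
  rcases hqp.eq_or_lt with rfl | hlt
  · exact hM
  obtain ⟨C, hC, hMC⟩ := hM
  have hp : 0 < p := hq.trans hlt
  have hpq : 0 < p - q := by linarith
  have hfin : IsFiniteMeasure ν := ⟨hBd.2.trans_lt ENNReal.ofReal_lt_top⟩
  set F : (Pl → ℝ≥0∞) → Pl → ℝ≥0∞ := fun f x => ⨆ k : ℤ, ∫⁻ y, f (x - (2 : ℝ) ^ k • y) ∂ν
    with hF
  have hFm : ∀ f, Measurable f → Measurable (F f) := by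
    intro f hf
    refine Measurable.iSup (fun k => ?_)
    have h1 : Measurable (fun z : Pl × Pl => f (z.1 - (2 : ℝ) ^ k • z.2)) :=
      hf.comp (by fun_prop)
    exact h1.lintegral_prod_right'
  set C' : ℝ := C * (2 : ℝ) ^ q * (p / (p - q)) * (2 * L) ^ (p - q) with hC'
  have hC'0 : 0 < C' := by positivity
  refine ⟨C', hC'0, ?_⟩
  intro f hf
  -- truncation
  have htr : ∀ t : ℝ, 0 < t → volume {x | ENNReal.ofReal t < F f x} ≤
      ENNReal.ofReal (C * (2 : ℝ) ^ q * t ^ (-q)) *
        ∫⁻ x in {x | ENNReal.ofReal (t / (2 * L)) < f x}, f x ^ q := by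
    intro t ht
    set T : Set Pl := {x | ENNReal.ofReal (t / (2 * L)) < f x} with hT
    have hTm : MeasurableSet T := measurableSet_lt measurable_const hf
    set fh : Pl → ℝ≥0∞ := T.indicator f with hfh
    have hfhm : Measurable fh := hf.indicator hTm
    have h1 : ∀ y, f y ≤ ENNReal.ofReal (t / (2 * L)) + fh y := by
      intro y
      by_cases hy : y ∈ T
      · rw [hfh, indicator_of_mem hy]; exact le_add_self
      · have : f y ≤ ENNReal.ofReal (t / (2 * L)) := not_lt.1 hy
        exact this.trans le_self_add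
    have h2 : ∀ x, F f x ≤ ENNReal.ofReal (t / 2) + F fh x := by
      intro x
      refine iSup_le (fun k => ?_)
      have hfk : Measurable (fun y => fh (x - (2 : ℝ) ^ k • y)) := hfhm.comp (by fun_prop)
      calc ∫⁻ y, f (x - (2 : ℝ) ^ k • y) ∂ν
          ≤ ∫⁻ y, (ENNReal.ofReal (t / (2 * L)) + fh (x - (2 : ℝ) ^ k • y)) ∂ν :=
            lintegral_mono (fun y => h1 _)
        _ = ENNReal.ofReal (t / (2 * L)) * ν univ + ∫⁻ y, fh (x - (2 : ℝ) ^ k • y) ∂ν := by
            rw [lintegral_add_left measurable_const, lintegral_const]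
        _ ≤ ENNReal.ofReal (t / (2 * L)) * ENNReal.ofReal L + F fh x := by
            refine add_le_add (mul_le_mul_right hBd.2 _) ?_
            exact le_iSup (fun k : ℤ => ∫⁻ y, fh (x - (2 : ℝ) ^ k • y) ∂ν) k
        _ = _ := by
            rw [← ENNReal.ofReal_mul (by positivity)]
            congr 2
            field_simp
    have h3 : {x | ENNReal.ofReal t < F f x} ⊆
        {x | ENNReal.ofReal (t / 2) ^ q ≤ F fh x ^ q} := by
      intro x hx
      by_contra hlt'
      have h4 : F fh x ≤ ENNReal.ofReal (t / 2) := by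
        by_contra h5
        exact hlt' (ENNReal.rpow_le_rpow (not_le.1 h5).le hq.le)
      have h5 : F f x ≤ ENNReal.ofReal t := by
        refine (h2 x).trans ((add_le_add le_rfl h4).trans (le_of_eq ?_))
        rw [← ENNReal.ofReal_add (by positivity) (by positivity)]
        congr 1; ring
      exact absurd hx (not_lt.2 h5)
    have h6 : ∫⁻ x, fh x ^ q = ∫⁻ x in T, f x ^ q := by
      rw [← lintegral_indicator hTm]
      refine lintegral_congr (fun x => ?_)
      by_cases hx : x ∈ T
      · rw [hfh, indicator_of_mem hx, indicator_of_mem hx]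
      · rw [hfh, indicator_of_notMem hx, indicator_of_notMem hx, ENNReal.zero_rpow_of_pos hq]
    have h7 : ENNReal.ofReal (t / 2) ^ q = ENNReal.ofReal ((t / 2) ^ q) :=
      ENNReal.ofReal_rpow_of_pos (by positivity)
    have h8 : 0 < (t / 2) ^ q := Real.rpow_pos_of_pos (by positivity) _
    calc volume {x | ENNReal.ofReal t < F f x}
        ≤ volume {x | ENNReal.ofReal (t / 2) ^ q ≤ F fh x ^ q} := measure_mono h3
      _ ≤ (∫⁻ x, F fh x ^ q) / ENNReal.ofReal (t / 2) ^ q :=
          meas_ge_le_lintegral_div ((hFm fh hfhm).pow_const q).aemeasurable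
            (by rw [h7]; exact (ENNReal.ofReal_pos.2 h8).ne')
            (by rw [h7]; exact ENNReal.ofReal_ne_top)
      _ ≤ (ENNReal.ofReal C * ∫⁻ x in T, f x ^ q) / ENNReal.ofReal (t / 2) ^ q := by
          rw [← h6]
          exact ENNReal.div_le_div_right (hMC fh hfhm) _
      _ = _ := by
          rw [h7, ENNReal.div_eq_inv_mul, ← ENNReal.ofReal_inv_of_pos h8, ← mul_assoc,
            ← ENNReal.ofReal_mul (by positivity)]
          congr 2
          rw [Real.div_rpow ht.le (by norm_num), Real.rpow_neg ht.le]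
          field_simp
  -- layer cake
  have hLC := Pool.Agent.Helper42.LM.hLC p hp (F f) (hFm f hf)
  have hgoal : ∫⁻ x, (⨆ k : ℤ, ∫⁻ y, f (x - (2 : ℝ) ^ k • y) ∂ν) ^ p = ∫⁻ x, F f x ^ p := rfl
  rw [hgoal, hLC]
  set w : ℝ → ℝ≥0∞ := fun t => ENNReal.ofReal (p * t ^ (p - 1)) * ENNReal.ofReal (t ^ (-q))
    with hw
  have hwm : Measurable w := by rw [hw]; fun_prop
  set S : Set (ℝ × Pl) := {z | ENNReal.ofReal (z.1 / (2 * L)) < f z.2} with hS
  have hSm : MeasurableSet S := measurableSet_lt (by fun_prop) (hf.comp measurable_snd)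
  have hfq : Measurable (fun x => f x ^ q) := hf.pow_const q
  have e1 : ∫⁻ t in Ioi (0 : ℝ), ENNReal.ofReal (p * t ^ (p - 1)) *
      volume {x | ENNReal.ofReal t < F f x} ≤
      ENNReal.ofReal (C * (2 : ℝ) ^ q) *
        ∫⁻ t in Ioi (0 : ℝ), w t * ∫⁻ x in {x : Pl | (t, x) ∈ S}, f x ^ q := by
    rw [← lintegral_const_mul' _ _ ENNReal.ofReal_ne_top]
    refine setLIntegral_mono' measurableSet_Ioi (fun t ht => ?_)
    have ht0 : 0 < t := ht
    calc ENNReal.ofReal (p * t ^ (p - 1)) * volume {x | ENNReal.ofReal t < F f x}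
        ≤ ENNReal.ofReal (p * t ^ (p - 1)) * (ENNReal.ofReal (C * (2 : ℝ) ^ q * t ^ (-q)) *
          ∫⁻ x in {x | ENNReal.ofReal (t / (2 * L)) < f x}, f x ^ q) :=
          mul_le_mul_right (htr t ht0) _
      _ = _ := by
          have e3 : ENNReal.ofReal (C * (2 : ℝ) ^ q * t ^ (-q)) =
            ENNReal.ofReal (C * (2 : ℝ) ^ q) * ENNReal.ofReal (t ^ (-q)) :=
            ENNReal.ofReal_mul (by positivity)
          have e2 : (∫⁻ x in {x : Pl | (t, x) ∈ S}, f x ^ q) =
            ∫⁻ x in {x | ENNReal.ofReal (t / (2 * L)) < f x}, f x ^ q := rfl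
          rw [e2, e3, hw]
          ring
  refine e1.trans ?_
  rw [tonINT w hwm _ hfq S hSm]
  rw [← lintegral_const_mul' _ _ ENNReal.ofReal_ne_top,
    ← lintegral_const_mul' _ _ ENNReal.ofReal_ne_top]
  refine lintegral_mono (fun x => ?_)
  by_cases hx : f x = ∞
  · rw [hx, ENNReal.top_rpow_of_pos hp, ENNReal.mul_top (ENNReal.ofReal_pos.2 hC'0).ne']
    exact le_top
  · set y : ℝ := (f x).toReal with hy
    have hy0 : 0 ≤ y := ENNReal.toReal_nonneg
    have hfy : f x = ENNReal.ofReal y := (ENNReal.ofReal_toReal hx).symm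
    have hSx : MeasurableSet {t : ℝ | (t, x) ∈ S} := measurable_prodMk_right hSm
    have h9 : ∫⁻ t in Ioi (0 : ℝ), {t : ℝ | (t, x) ∈ S}.indicator w t ≤
        ENNReal.ofReal (p / (p - q) * (2 * L * y) ^ (p - q)) := by
      rw [← powINT p q hq hlt (2 * L * y) (by positivity),
        lintegral_indicator hSx, Measure.restrict_restrict hSx]
      refine lintegral_mono' (Measure.restrict_mono ?_ le_rfl) le_rfl
      rintro t ⟨ht, ht0⟩
      have ht0' : 0 < t := ht0
      have ht' : ENNReal.ofReal (t / (2 * L)) < f x := ht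
      rw [hfy] at ht'
      have h10 : t / (2 * L) < y := (ENNReal.ofReal_lt_ofReal_iff_of_nonneg (by positivity)).1 ht'
      refine ⟨ht0', ?_⟩
      rw [div_lt_iff₀ (by positivity)] at h10
      linarith
    calc ENNReal.ofReal (C * (2 : ℝ) ^ q) * (f x ^ q *
          ∫⁻ t in Ioi (0 : ℝ), {t : ℝ | (t, x) ∈ S}.indicator w t)
        ≤ ENNReal.ofReal (C * (2 : ℝ) ^ q) * (f x ^ q *
          ENNReal.ofReal (p / (p - q) * (2 * L * y) ^ (p - q))) := by gcongr
      _ = ENNReal.ofReal C' * f x ^ p := by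
          rcases hy0.eq_or_lt with h0 | h0
          · rw [hfy, ← h0, ENNReal.ofReal_zero, ENNReal.zero_rpow_of_pos hq,
              ENNReal.zero_rpow_of_pos hp, zero_mul, mul_zero, mul_zero]
          · rw [hfy, ENNReal.ofReal_rpow_of_pos h0, ENNReal.ofReal_rpow_of_pos h0,
              ← ENNReal.ofReal_mul (by positivity), ← ENNReal.ofReal_mul (by positivity),
              ← ENNReal.ofReal_mul hC'0.le]
            congr 1
            rw [hC', Real.mul_rpow (by positivity) hy0]
            have h11 : y ^ p = y ^ q * y ^ (p - q) := by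
              rw [← Real.rpow_add h0]; congr 1; ring
            rw [h11]
            ring

end Pool.Agent.Helper24.RG
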