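import Pool.Agent.Helper20.RG.St3

set_option autoImplicit false

open MeasureTheory Set Filter Topology
open scoped ENNReal RealInnerProductSpace

namespace Pool.Agent.Helper24.RG

open Pool.Agent.Helper68.LM (Pl BB Bd Av HL ft fm DQ)
open Pool.Agent.Helper20.RG

private theorem tonCAL (w : ℝ → ℝ≥0∞) (hw : Measurable w) (h : Pl → ℝ≥0∞) (hh : Measurable h)
    (S : Set (ℝ × Pl)) (hS : MeasurableSet S) (B : Pl → ℝ≥0∞)
    (hB : ∀ x, ∫⁻ t in Ioi (0 : ℝ), {t : ℝ | (t, x) ∈ S}.indicator w t ≤ B x) :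
    ∫⁻ t in Ioi (0 : ℝ), w t * ∫⁻ x in {x : Pl | (t, x) ∈ S}, h x ≤ ∫⁻ x, h x * B x := by
  have h1 : ∀ t : ℝ, w t * ∫⁻ x in {x : Pl | (t, x) ∈ S}, h x =
      ∫⁻ x, S.indicator (fun z : ℝ × Pl => w z.1 * h z.2) (t, x) := by
    intro t
    have hSt : MeasurableSet {x : Pl | (t, x) ∈ S} := measurable_prodMk_left hS
    rw [← lintegral_indicator hSt, ← lintegral_const_mul _ (hh.indicator hSt)]
    refine lintegral_congr (fun x => ?_)
    by_cases hx : (t, x) ∈ S
    · rw [indicator_of_mem (show x ∈ {x : Pl | (t, x) ∈ S} from hx), indicator_of_mem hx]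
    · rw [indicator_of_notMem (show x ∉ {x : Pl | (t, x) ∈ S} from hx),
        indicator_of_notMem hx, mul_zero]
  have hm : Measurable (S.indicator (fun z : ℝ × Pl => w z.1 * h z.2)) :=
    ((hw.comp measurable_fst).mul (hh.comp measurable_snd)).indicator hS
  calc ∫⁻ t in Ioi (0 : ℝ), w t * ∫⁻ x in {x : Pl | (t, x) ∈ S}, h x
      = ∫⁻ t in Ioi (0 : ℝ), ∫⁻ x, S.indicator (fun z : ℝ × Pl => w z.1 * h z.2) (t, x) :=
        lintegral_congr (fun t => h1 t)
    _ = ∫⁻ x, ∫⁻ t in Ioi (0 : ℝ), S.indicator (fun z : ℝ × Pl => w z.1 * h z.2) (t, x) :=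
        lintegral_lintegral_swap hm.aemeasurable
    _ ≤ ∫⁻ x, h x * B x := by
        refine lintegral_mono (fun x => ?_)
        have hSx : MeasurableSet {t : ℝ | (t, x) ∈ S} := measurable_prodMk_right hS
        have h2 : ∀ t : ℝ, S.indicator (fun z : ℝ × Pl => w z.1 * h z.2) (t, x) =
            h x * {t : ℝ | (t, x) ∈ S}.indicator w t := by
          intro t
          by_cases hx : (t, x) ∈ S
          · rw [indicator_of_mem (show t ∈ {t : ℝ | (t, x) ∈ S} from hx), indicator_of_mem hx,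
              mul_comm]
          · rw [indicator_of_notMem (show t ∉ {t : ℝ | (t, x) ∈ S} from hx),
              indicator_of_notMem hx, mul_zero]
        simp only [h2]
        rw [lintegral_const_mul _ (hw.indicator hSx)]
        exact mul_le_mul_right (hB x) _

private theorem powCAL (q : ℝ) (hq : 2 < q) (b : ℝ) (hb : 0 ≤ b) :
    ∫⁻ t in Ioc (0 : ℝ) b, ENNReal.ofReal (q * t ^ (q - 1)) * ENNReal.ofReal (t ^ (-(2 : ℝ))) =
      ENNReal.ofReal (q / (q - 2) * b ^ (q - 2)) := by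
  have h1 : ∫⁻ t in Ioc (0 : ℝ) b,
      ENNReal.ofReal (q * t ^ (q - 1)) * ENNReal.ofReal (t ^ (-(2 : ℝ))) =
      ∫⁻ t in Ioc (0 : ℝ) b, ENNReal.ofReal (q * t ^ (q - 3)) := by
    refine setLIntegral_congr_fun measurableSet_Ioc (fun t ht => ?_)
    have ht0 : 0 < t := ht.1
    have h2 : 0 ≤ q * t ^ (q - 1) := mul_nonneg (by linarith) (Real.rpow_nonneg ht0.le _)
    rw [← ENNReal.ofReal_mul h2, mul_assoc, ← Real.rpow_add ht0]
    congr 3
    ring
  rw [h1]
  have hint : IntervalIntegrable (fun t : ℝ => q * t ^ (q - 3)) volume 0 b :=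
    (intervalIntegral.intervalIntegrable_rpow' (by linarith)).const_mul q
  have hio : IntegrableOn (fun t : ℝ => q * t ^ (q - 3)) (Ioc 0 b) volume :=
    (intervalIntegrable_iff_integrableOn_Ioc_of_le hb).1 hint
  rw [← ofReal_integral_eq_lintegral_ofReal hio]
  · rw [← intervalIntegral.integral_of_le hb, intervalIntegral.integral_const_mul,
      integral_rpow (Or.inl (by linarith))]
    congr 1
    have e1 : q - 3 + 1 = q - 2 := by ring
    rw [e1, Real.zero_rpow (by linarith), sub_zero]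
    ring
  · refine (ae_restrict_iff' measurableSet_Ioc).2 (Eventually.of_forall (fun t ht => ?_))
    exact mul_nonneg (by linarith) (Real.rpow_nonneg ht.1.le _)

private theorem invCAL (q : ℝ) (hq : 2 < q) (a b : ℝ) (ha : 0 < a) (hab : a ≤ b) :
    ∫⁻ t in Ioc a b, ENNReal.ofReal (q * t ^ (q - 1)) * ENNReal.ofReal (t ^ (-q)) =
      ENNReal.ofReal (q * Real.log (b / a)) := by
  have h1 : ∫⁻ t in Ioc a b,
      ENNReal.ofReal (q * t ^ (q - 1)) * ENNReal.ofReal (t ^ (-q)) =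
      ∫⁻ t in Ioc a b, ENNReal.ofReal (q * t⁻¹) := by
    refine setLIntegral_congr_fun measurableSet_Ioc (fun t ht => ?_)
    have ht0 : 0 < t := ha.trans ht.1
    have h2 : 0 ≤ q * t ^ (q - 1) := mul_nonneg (by linarith) (Real.rpow_nonneg ht0.le _)
    rw [← ENNReal.ofReal_mul h2, mul_assoc, ← Real.rpow_add ht0, ← Real.rpow_neg_one]
    congr 3
    ring
  rw [h1]
  have h0 : (0 : ℝ) ∉ uIcc a b := by
    rw [uIcc_of_le hab]; intro h; exact absurd h.1 (not_le.2 ha)
  have hint : IntervalIntegrable (fun t : ℝ => q * t⁻¹) volume a b :=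
    (intervalIntegral.intervalIntegrable_inv (fun x hx hx0 => h0 (hx0 ▸ hx))
      continuousOn_id).const_mul q
  have hio : IntegrableOn (fun t : ℝ => q * t⁻¹) (Ioc a b) volume :=
    (intervalIntegrable_iff_integrableOn_Ioc_of_le hab).1 hint
  rw [← ofReal_integral_eq_lintegral_ofReal hio]
  · rw [← intervalIntegral.integral_of_le hab, intervalIntegral.integral_const_mul,
      integral_inv h0]
  · refine (ae_restrict_iff' measurableSet_Ioc).2 (Eventually.of_forall (fun t ht => ?_))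
    exact mul_nonneg (by linarith) (inv_nonneg.2 (ha.trans ht.1).le)

theorem hCAL : StCAL := by
  intro q hq
  have hq2 : 0 < q - 2 := by linarith
  have hq0 : 0 < q := by linarith
  have hlog : 0 < Real.log 2 := Real.log_pos (by norm_num)
  set C : ℝ := q / (q - 2) * (2 : ℝ) ^ (q - 2) + q * Real.log 2 with hC
  have hc1 : 0 < q / (q - 2) := div_pos hq0 hq2
  have h2q : 1 ≤ (2 : ℝ) ^ (q - 2) := Real.one_le_rpow (by norm_num) hq2.le
  have hCpos : 0 < C := by positivity
  refine ⟨C, hCpos, ?_⟩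
  intro g u hg hg0
  have hgm : Measurable (fun z : ℝ × Pl => g z.2) := hg.comp measurable_snd
  have hwm : Measurable (fun t : ℝ => ENNReal.ofReal (q * t ^ (q - 1)) *
      ENNReal.ofReal (t ^ (-(2 : ℝ)))) := by fun_prop
  have hwm' : Measurable (fun t : ℝ => ENNReal.ofReal (q * t ^ (q - 1)) *
      ENNReal.ofReal (t ^ (-q))) := by fun_prop
  have hh2 : Measurable (fun x => ENNReal.ofReal (g x) ^ 2) := hg.ennreal_ofReal.pow_const 2
  have hhq : Measurable (fun x => ENNReal.ofReal (g x) ^ q) := hg.ennreal_ofReal.pow_const q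
  -- the indicator over `Ioi 0`
  have hind : ∀ (w : ℝ → ℝ≥0∞) (T : Set ℝ) (a b : ℝ), MeasurableSet T →
      Ioi (0 : ℝ) ∩ T ⊆ Icc a b →
      ∫⁻ t in Ioi (0 : ℝ), T.indicator w t ≤ ∫⁻ t in Ioc a b, w t := by
    intro w T a b hT hsub
    rw [lintegral_indicator hT, Measure.restrict_restrict hT, ← Measure.restrict_congr_set Ioc_ae_eq_Icc.symm]
    refine lintegral_mono' (Measure.restrict_mono ?_ le_rfl) le_rfl
    intro t ht
    exact hsub ⟨ht.2, ht.1⟩
  have hpow : ∀ y : ℝ, 0 ≤ y → ENNReal.ofReal y ^ 2 * ENNReal.ofReal (y ^ (q - 2)) =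
      ENNReal.ofReal y ^ q := by
    intro y hy
    rcases hy.eq_or_lt with rfl | hy
    · rw [ENNReal.ofReal_zero, ENNReal.zero_rpow_of_pos hq0]
      simp
    · rw [← ENNReal.ofReal_pow hy.le, ← ENNReal.ofReal_mul (by positivity),
        ENNReal.ofReal_rpow_of_pos hy]
      congr 1
      rw [← Real.rpow_natCast y 2, ← Real.rpow_add hy]
      congr 1
      push_cast
      ring
  refine ⟨?_, ?_, ?_⟩
  · have hS : MeasurableSet {z : ℝ × Pl | z.1 / 2 ≤ g z.2} :=
      measurableSet_le (by fun_prop) hgm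
    have h1 := tonCAL _ hwm _ hh2 {z : ℝ × Pl | z.1 / 2 ≤ g z.2} hS
      (fun x => ENNReal.ofReal (q / (q - 2) * (2 * g x) ^ (q - 2))) (fun x => by
        have h2 : 0 ≤ 2 * g x := by have := hg0 x; linarith
        rw [← powCAL q hq (2 * g x) h2]
        refine hind _ _ _ _ (measurable_prodMk_right hS) ?_
        rintro t ⟨ht0, ht⟩
        have ht' : t / 2 ≤ g x := ht
        exact ⟨le_of_lt ht0, by linarith⟩)
    have h3 : ∀ x, ENNReal.ofReal (g x) ^ 2 *
        ENNReal.ofReal (q / (q - 2) * (2 * g x) ^ (q - 2)) ≤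
        ENNReal.ofReal C * ENNReal.ofReal (g x) ^ q := by
      intro x
      have e1 : q / (q - 2) * (2 * g x) ^ (q - 2) =
          (q / (q - 2) * (2 : ℝ) ^ (q - 2)) * g x ^ (q - 2) := by
        rw [Real.mul_rpow (by norm_num) (hg0 x)]; ring
      rw [e1, ENNReal.ofReal_mul (by positivity), mul_left_comm, hpow _ (hg0 x)]
      refine mul_le_mul_left (ENNReal.ofReal_le_ofReal ?_) _
      rw [hC]
      have : 0 ≤ q * Real.log 2 := by positivity
      linarith
    calc _ = ∫⁻ t in Ioi (0 : ℝ), (ENNReal.ofReal (q * t ^ (q - 1)) *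
          ENNReal.ofReal (t ^ (-(2 : ℝ)))) *
          ∫⁻ x in {x : Pl | (t, x) ∈ {z : ℝ × Pl | z.1 / 2 ≤ g z.2}},
            ENNReal.ofReal (g x) ^ 2 := by
          refine lintegral_congr (fun t => ?_)
          rw [mul_assoc]
          rfl
      _ ≤ _ := h1
      _ ≤ ∫⁻ x, ENNReal.ofReal C * ENNReal.ofReal (g x) ^ q := lintegral_mono h3
      _ = _ := lintegral_const_mul _ hhq
  · have hS : MeasurableSet {z : ℝ × Pl | z.1 / 2 ≤ g z.2 ∧ g z.2 < (2 : ℝ) ^ u * z.1} :=
      (measurableSet_le (by fun_prop) hgm).inter (measurableSet_lt hgm (by fun_prop))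
    have h1 := tonCAL _ hwm' _ hhq
      {z : ℝ × Pl | z.1 / 2 ≤ g z.2 ∧ g z.2 < (2 : ℝ) ^ u * z.1} hS
      (fun x => ENNReal.ofReal (C * (u + 1))) (fun x => by
        rcases (hg0 x).eq_or_lt with h0 | h0
        · have h2 : Ioi (0 : ℝ) ∩ {t : ℝ | (t, x) ∈
              {z : ℝ × Pl | z.1 / 2 ≤ g z.2 ∧ g z.2 < (2 : ℝ) ^ u * z.1}} ⊆ Icc (1 : ℝ) 0 := by
            rintro t ⟨ht0, ht, -⟩
            have ht' : t / 2 ≤ g x := ht
            have ht0' : 0 < t := ht0
            rw [← h0] at ht'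
            linarith
          refine (hind _ _ _ _ (measurable_prodMk_right hS) h2).trans ?_
          rw [Ioc_eq_empty (by norm_num)]
          simp
        · have h2 : (2 : ℝ) ^ u * ((2 : ℝ) ^ u)⁻¹ = 1 := mul_inv_cancel₀ (by positivity)
          have ha : 0 < ((2 : ℝ) ^ u)⁻¹ * g x := by positivity
          have hle : ((2 : ℝ) ^ u)⁻¹ ≤ 1 := inv_le_one_of_one_le₀ (one_le_pow₀ (by norm_num))
          have hab : ((2 : ℝ) ^ u)⁻¹ * g x ≤ 2 * g x :=
            mul_le_mul_of_nonneg_right (by linarith) h0.le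
          refine (hind _ _ (((2 : ℝ) ^ u)⁻¹ * g x) (2 * g x)
            (measurable_prodMk_right hS) ?_).trans ?_
          · rintro t ⟨ht0, ht1, ht2⟩
            have ht1' : t / 2 ≤ g x := ht1
            have ht2' : g x < (2 : ℝ) ^ u * t := ht2
            refine ⟨?_, by linarith⟩
            rw [inv_mul_le_iff₀ (by positivity)]
            exact ht2'.le
          · rw [invCAL q hq _ _ ha hab]
            refine ENNReal.ofReal_le_ofReal ?_
            have e1 : 2 * g x / (((2 : ℝ) ^ u)⁻¹ * g x) = (2 : ℝ) ^ (u + 1) := by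
              rw [pow_succ]; field_simp
            rw [e1, Real.log_pow]
            push_cast
            have h5 : 0 ≤ q / (q - 2) * (2 : ℝ) ^ (q - 2) * ((u : ℝ) + 1) := by positivity
            rw [hC]
            nlinarith)
    calc _ = ∫⁻ t in Ioi (0 : ℝ), (ENNReal.ofReal (q * t ^ (q - 1)) *
          ENNReal.ofReal (t ^ (-q))) *
          ∫⁻ x in {x : Pl | (t, x) ∈
            {z : ℝ × Pl | z.1 / 2 ≤ g z.2 ∧ g z.2 < (2 : ℝ) ^ u * z.1}},
            ENNReal.ofReal (g x) ^ q := by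
          refine lintegral_congr (fun t => ?_)
          rw [mul_assoc]
          rfl
      _ ≤ _ := h1
      _ = ENNReal.ofReal (C * (u + 1)) * ∫⁻ x, ENNReal.ofReal (g x) ^ q := by
          rw [lintegral_mul_const _ hhq, mul_comm]
  · have hS : MeasurableSet {z : ℝ × Pl | (2 : ℝ) ^ u * z.1 ≤ g z.2} :=
      measurableSet_le (by fun_prop) hgm
    have h1 := tonCAL _ hwm _ hh2 {z : ℝ × Pl | (2 : ℝ) ^ u * z.1 ≤ g z.2} hS
      (fun x => ENNReal.ofReal (q / (q - 2) * (((2 : ℝ) ^ u)⁻¹ * g x) ^ (q - 2))) (fun x => by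
        have h2 : 0 ≤ ((2 : ℝ) ^ u)⁻¹ * g x := by have := hg0 x; positivity
        rw [← powCAL q hq (((2 : ℝ) ^ u)⁻¹ * g x) h2]
        refine hind _ _ _ _ (measurable_prodMk_right hS) ?_
        rintro t ⟨ht0, ht⟩
        have ht' : (2 : ℝ) ^ u * t ≤ g x := ht
        refine ⟨le_of_lt ht0, ?_⟩
        rw [le_inv_mul_iff₀ (by positivity)]
        exact ht')
    have h3 : ∀ x, ENNReal.ofReal (g x) ^ 2 *
        ENNReal.ofReal (q / (q - 2) * (((2 : ℝ) ^ u)⁻¹ * g x) ^ (q - 2)) ≤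
        ENNReal.ofReal (C * (2 : ℝ) ^ (-((q - 2) * u))) * ENNReal.ofReal (g x) ^ q := by
      intro x
      have e0 : (((2 : ℝ) ^ u)⁻¹) ^ (q - 2) = (2 : ℝ) ^ (-((q - 2) * u)) := by
        rw [← Real.rpow_natCast, ← Real.rpow_neg (by norm_num), ← Real.rpow_mul (by norm_num)]
        congr 1
        ring
      have e1 : q / (q - 2) * (((2 : ℝ) ^ u)⁻¹ * g x) ^ (q - 2) =
          (q / (q - 2) * (2 : ℝ) ^ (-((q - 2) * u))) * g x ^ (q - 2) := by
        rw [Real.mul_rpow (by positivity) (hg0 x), e0]; ring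
      rw [e1, ENNReal.ofReal_mul (by positivity), mul_left_comm, hpow _ (hg0 x)]
      refine mul_le_mul_left (ENNReal.ofReal_le_ofReal ?_) _
      refine mul_le_mul_of_nonneg_right ?_ (Real.rpow_nonneg (by norm_num) _)
      rw [hC]
      have h4 : 0 ≤ q * Real.log 2 := by positivity
      nlinarith
    calc _ = ∫⁻ t in Ioi (0 : ℝ), (ENNReal.ofReal (q * t ^ (q - 1)) *
          ENNReal.ofReal (t ^ (-(2 : ℝ)))) *
          ∫⁻ x in {x : Pl | (t, x) ∈ {z : ℝ × Pl | (2 : ℝ) ^ u * z.1 ≤ g z.2}},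
            ENNReal.ofReal (g x) ^ 2 := by
          refine lintegral_congr (fun t => ?_)
          rw [mul_assoc]
          rfl
      _ ≤ _ := h1
      _ ≤ ∫⁻ x, ENNReal.ofReal (C * (2 : ℝ) ^ (-((q - 2) * u))) * ENNReal.ofReal (g x) ^ q :=
          lintegral_mono h3
      _ = _ := lintegral_const_mul _ hhq

end Pool.Agent.Helper24.RG
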